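import Pool.Agent.Helper71.AG2.Goals

/-!
# Project AG+, packet TOP: closure of supersolvable and metabelian groups
-/

set_option autoImplicit false

namespace Pool.Agent.Helper41.AG2

open Pool.Agent.Helper71.AG2

universe u

theorem ss_map {G G' : Type u} [Group G] [Group G'] (f : G →* G')
    (hf : Function.Surjective f) (h : Helper46.KG.IsSupersolvable G) :
    Helper46.KG.IsSupersolvable G' := by
  obtain ⟨n, H, h0, hn, hnor, hs⟩ := h
  refine ⟨n, fun i => (H i).map f, ?_, ?_, ?_, ?_⟩
  · simp only
    rw [h0, Subgroup.map_bot]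
  · simp only
    rw [hn]
    exact Subgroup.map_top_of_surjective _ hf
  · intro i
    exact (hnor i).map _ hf
  · intro i hi
    obtain ⟨g, hg⟩ := hs i hi
    refine ⟨f g, ?_⟩
    simp only
    rw [hg, Subgroup.map_sup, MonoidHom.map_zpowers]

theorem step {G G' : Type u} [Group G] [Group G'] (f : G →* G') (A B : Subgroup G') [A.Normal]
    (g : G') (hg : B = A ⊔ Subgroup.zpowers g) :
    ∃ x : G, B.comap f = A.comap f ⊔ Subgroup.zpowers x := by
  let F : G →* G' ⧸ A := (QuotientGroup.mk' A).comp f
  have hF : ∀ x : G, F x = QuotientGroup.mk' A (f x) := fun _ => rfl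
  let S : Subgroup (G' ⧸ A) := (B.comap f).map F
  have hB : B.map (QuotientGroup.mk' A) = Subgroup.zpowers (QuotientGroup.mk' A g) := by
    rw [hg, Subgroup.map_sup, MonoidHom.map_zpowers, QuotientGroup.map_mk'_self, bot_sup_eq]
  have hS : S ≤ Subgroup.zpowers (QuotientGroup.mk' A g) := by
    rw [← hB]
    rintro y ⟨x, hx, rfl⟩
    exact Subgroup.mem_map_of_mem _ hx
  have hcyc : IsCyclic S := isCyclic_of_injective (Subgroup.inclusion hS)
    (Subgroup.inclusion_injective hS)
  obtain ⟨s, hs⟩ := hcyc.exists_generator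
  obtain ⟨x₀, hx₀, hsx⟩ := s.2
  have hAB : A ≤ B := by rw [hg]; exact le_sup_left
  refine ⟨x₀, le_antisymm ?_ (sup_le (Subgroup.comap_mono hAB) ?_)⟩
  · intro x hx
    obtain ⟨k, hk⟩ := Subgroup.mem_zpowers_iff.1 (hs ⟨F x, Subgroup.mem_map_of_mem _ hx⟩)
    have h1 : (s : G' ⧸ A) ^ k = F x := by
      have := congrArg Subtype.val hk
      simpa using this
    have h2 : F (x * (x₀ ^ k)⁻¹) = 1 := by
      rw [map_mul, map_inv, map_zpow, hsx, h1, mul_inv_cancel]
    have h3 : x * (x₀ ^ k)⁻¹ ∈ A.comap f := by
      rw [Subgroup.mem_comap]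
      rw [hF, QuotientGroup.mk'_apply, QuotientGroup.eq_one_iff] at h2
      exact h2
    have h4 : x = (x * (x₀ ^ k)⁻¹) * x₀ ^ k := by group
    rw [h4]
    exact Subgroup.mul_mem_sup h3 (Subgroup.zpow_mem_zpowers x₀ k)
  · rw [Subgroup.zpowers_le]
    exact hx₀

theorem ss_comap {G G' : Type u} [Group G] [Group G'] (f : G →* G')
    (hf : Function.Injective f) (h : Helper46.KG.IsSupersolvable G') :
    Helper46.KG.IsSupersolvable G := by
  obtain ⟨n, H, h0, hn, hnor, hs⟩ := h
  refine ⟨n, fun i => (H i).comap f, ?_, ?_, ?_, ?_⟩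
  · simp only
    rw [h0]
    exact (MonoidHom.ker_eq_bot_iff f).2 hf
  · simp only
    rw [hn, Subgroup.comap_top]
  · intro i
    exact (hnor i).comap _
  · intro i hi
    obtain ⟨g, hg⟩ := hs i hi
    have := hnor i
    exact step f (H i) (H (i + 1)) g hg

theorem top : TopStmt.{u} := by
  refine ⟨?_, ?_⟩
  · intro G G' _ _ f hf h
    rcases h with h | h
    · exact Or.inl (ss_map f hf h)
    · right
      have hc : (commutator G).map f = commutator G' := by
        rw [commutator_def, commutator_def, Subgroup.map_commutator,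
          Subgroup.map_top_of_surjective _ hf]
      intro x hx y hy
      rw [← hc] at hx hy
      obtain ⟨a, ha, rfl⟩ := hx
      obtain ⟨b, hb, rfl⟩ := hy
      rw [← map_mul, h a ha b hb, map_mul]
  · intro G G' _ _ f hf h
    rcases h with h | h
    · exact Or.inl (ss_comap f hf h)
    · right
      have hc : (commutator G).map f ≤ commutator G' := by
        rw [commutator_def, commutator_def, Subgroup.map_commutator]
        exact Subgroup.commutator_mono le_top le_top
      intro x hx y hy
      apply hf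
      rw [map_mul, map_mul]
      exact h _ (hc (Subgroup.mem_map_of_mem _ hx)) _ (hc (Subgroup.mem_map_of_mem _ hy))

end Pool.Agent.Helper41.AG2
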